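import Pool.Agent.H44.AR.BasicA

/-!
# Board `ara_modules` (MP_6ab439_lc), row PRM: the type of the value of a block
-/

set_option autoImplicit false
set_option linter.unusedVariables false

namespace Pool.Agent.H78.AR

open Pool.Agent.H68.BP Pool.Agent.H58.SF Pool.Agent.H53.GC Pool.Agent.H53.NR Pool.Agent.H53.GR
open Pool.Agent.H57.AR Pool.Agent.H44.AR
open Pool.Agent.H57.SO (Pal Col vt Sb FBl)
open Pool.Agent.H57.EQ (Cx)

theorem pf_PRM (hUKM : T_UKM) (hFRB : T_FRB) : T_PRM := by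
  classical
  intro σ ρ V _ 𝔸 𝔹 M hU D h hS hN s q q' hq hq'
  obtain ⟨-, hF⟩ := hFRB ρ V 𝔹 M hU
  -- free blocks, chosen by types
  obtain ⟨g, hg⟩ : ∃ g : T1 ρ → Fin 6 → V, ∀ x, Gb 𝔹 (g (ty 𝔹 x)) ∧
      ∀ l, ty 𝔹 (g (ty 𝔹 x) l) = ty 𝔹 x := by
    have h1 : ∀ t : T1 ρ, ∃ b : Fin 6 → V, (∃ x, ty 𝔹 x = t) → Gb 𝔹 b ∧ ∀ l, ty 𝔹 (b l) = t := by
      intro t
      by_cases ht : ∃ x, ty 𝔹 x = t
      · obtain ⟨x, rfl⟩ := ht
        obtain ⟨b, hb⟩ := hF x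
        exact ⟨b, fun _ => hb⟩
      · exact ⟨q, fun h => absurd h ht⟩
    choose g hg using h1
    exact ⟨g, fun x => hg _ ⟨x, rfl⟩⟩
  have key : ∀ p : Fin 6 → V, (∀ l, ty 𝔹 (p l) = s) → ∃ m, UM 𝔹 𝔹 𝔸 𝔸 m ∧
      tm m s = tyO h p ∧ ∀ x, ty 𝔹 x ≠ s → tm m (ty 𝔹 x) = tyO h (g (ty 𝔹 x)) := by
    intro p hp
    obtain ⟨m, hm, h1, -⟩ := hUKM σ ρ V 𝔸 𝔹 M hU D h hS s p
      (fun x => if ty 𝔹 x = s then p else g (ty 𝔹 x)) hp
      (fun x hx => if_pos hx) (fun x hx => by rw [if_neg hx]; exact hg x)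
      (fun x y hxy => by
        show (if ty 𝔹 x = s then p else g (ty 𝔹 x)) = if ty 𝔹 y = s then p else g (ty 𝔹 y)
        rw [hxy])
    refine ⟨m, hm, ?_, ?_⟩
    · have h2 := h1 (p 0)
      rw [hp 0, if_pos rfl] at h2
      exact h2
    · intro x hx
      have h2 := h1 x
      rw [if_neg hx] at h2
      exact h2
  obtain ⟨m, hm, hms, hmx⟩ := key q hq
  obtain ⟨m', hm', hms', hmx'⟩ := key q' hq'
  -- the permutation of the types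
  obtain ⟨f, hf⟩ : ∃ f : Set.range (ty 𝔹) → Set.range (ty 𝔹), ∀ t, (f t).1 = tm m t.1 := by
    refine ⟨fun t => ⟨tm m t.1, ?_⟩, fun t => rfl⟩
    obtain ⟨x, hx⟩ := t.2
    obtain ⟨y, hy⟩ := hm.tm_mem x
    exact ⟨y, by rw [hy, hx]⟩
  have hinj : Function.Injective f := by
    rintro ⟨_, x, rfl⟩ ⟨_, y, rfl⟩ hxy
    have h1 := congrArg Subtype.val hxy
    rw [hf, hf] at h1
    exact Subtype.ext (hN m hm x y h1)
  have hsur : Function.Surjective f := Finite.surjective_of_injective hinj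
  obtain ⟨y, hy⟩ := hm'.tm_mem (q' 0)
  obtain ⟨⟨_, x, rfl⟩, hx⟩ := hsur ⟨ty 𝔹 y, y, rfl⟩
  have h1 := congrArg Subtype.val hx
  rw [hf] at h1
  have h2 : tm m (ty 𝔹 x) = tm m' s := by rw [← hq' 0, ← hy]; exact h1
  by_cases hxs : ty 𝔹 x = s
  · rw [← hms, ← hms', ← h2, hxs]
  · exfalso
    rw [hmx x hxs, ← hmx' x hxs, ← hq' 0] at h2
    exact hxs ((hN m' hm' x (q' 0) h2).trans (hq' 0))

end Pool.Agent.H78.AR
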