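import Pool.Agent.H57.AR.Targets

/-!
# Board `ar_modules` (MP_6ab439_lc), row CANR: limits of local maps and canonization
-/

set_option autoImplicit false
set_option linter.unusedVariables false

namespace Pool.Agent.H78.AR.CANR

open Pool.Agent.H68.BP Pool.Agent.H58.SF Pool.Agent.H53.GC Pool.Agent.H53.NR Pool.Agent.H53.GR
open Pool.Agent.H57.AR
open Pool.Agent.H57.SO (Pal Col vt)
open Pool.Agent.H57.EQ (Cx)
open Function Filter

theorem exists_lim {T Y : Type} [Finite Y] (U : Ultrafilter T) (f : T → Y) :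
    ∃ y, ∀ᶠ t in (U : Filter T), f t = y := by
  have h1 : ∀ᶠ t in (U : Filter T), ∃ y ∈ (Set.univ : Set Y), f t = y :=
    Eventually.of_forall fun t => ⟨f t, trivial, rfl⟩
  obtain ⟨y, -, hy⟩ := (Ultrafilter.eventually_exists_mem_iff (Set.finite_univ)).1 h1
  exact ⟨y, hy⟩

section

variable {V S X : Type} [LinearOrder V] {P : Pal S X} {c : V → V → S ⊕ X} {σ ρ : Sig}
  {𝔸 : Str σ V} {𝔹 : Str ρ V} {M : ℕ}

/-- the limit of local maps -/
theorem exists_h0 (hs : StpR P 𝔸 𝔹 M c) (I : Type) [Finite I]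
    (R : (I → V) → (I → V) → S ⊕ X → Prop)
    (hG : ∀ (W : Type) [Finite W] (G : I → W → V), (∀ u w, (∀ i, G i u = G i w) → u = w) →
      ∃ ψ : W → V, Cx 𝔸 G ψ ∧
        ∀ u w, R (fun i => G i u) (fun i => G i w) (c (ψ u) (ψ w))) :
    ∃ (H0 : (l : Fin ρ.m) → (Fin (ρ.ar l) → I → V) → Prop) (o0 : (I → V) → (I → V) → Prop)
      (h0 : (I → V) → (I → V) → S ⊕ X), (∀ v w, R v w (h0 v w)) ∧
      ∀ (W : Type) [Finite W] (G : I → W → V), ∃ ψ : W → V, Cx 𝔸 G ψ ∧
        (∀ (l : Fin ρ.m) (z : Fin (ρ.ar l) → W),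
          𝔹 l (fun a => ψ (z a)) ↔ H0 l (fun a i => G i (z a))) ∧
        (∀ u w, ψ u < ψ w ↔ o0 (fun i => G i u) (fun i => G i w)) ∧
        ∀ u w, c (ψ u) (ψ w) = h0 (fun i => G i u) (fun i => G i w) := by
  classical
  have := hs.lnk.finS
  have := hs.lnk.finX
  obtain ⟨x0⟩ := hs.base.ne
  -- the local maps
  have hloc : ∀ Q : Finset V, ∃ ψ : (I → Q) → V, Cx 𝔸 (fun (i : I) (w : I → Q) => (w i : V)) ψ ∧
      ∀ u w : I → Q, R (fun i => (u i : V)) (fun i => (w i : V)) (c (ψ u) (ψ w)) := by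
    intro Q
    exact hG (I → Q) (fun i w => (w i : V)) (fun u w h => funext fun i => Subtype.ext (h i))
  choose ψ hψ hR using hloc
  obtain ⟨e, he⟩ : ∃ e : Finset V → (I → V) → V, ∀ (Q : Finset V) (v : I → V) (h : ∀ i, v i ∈ Q),
      e Q v = ψ Q (fun i => ⟨v i, h i⟩) :=
    ⟨fun Q v => if h : ∀ i, v i ∈ Q then ψ Q (fun i => ⟨v i, h i⟩) else x0,
      fun Q v h => dif_pos h⟩
  obtain ⟨U, hU⟩ := Ultrafilter.exists_le (atTop : Filter (Finset V))
  choose H0 hH using fun (l : Fin ρ.m) (u : Fin (ρ.ar l) → I → V) =>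
    exists_lim U (fun Q => 𝔹 l (fun b => e Q (u b)))
  choose o0 ho using fun v w => exists_lim U (fun Q => e Q v < e Q w)
  choose h0 hh using fun v w => exists_lim U (fun Q => c (e Q v) (e Q w))
  have hin : ∀ K₀ : Finset V, ∀ᶠ K in (U : Filter (Finset V)), K₀ ⊆ K := fun K₀ =>
    hU (eventually_ge_atTop K₀)
  refine ⟨H0, o0, h0, ?_, ?_⟩
  · intro v w
    obtain ⟨K, hK1, hK2, hK3⟩ := ((hh v w).and ((hin (Set.finite_range v).toFinset).and
      (hin (Set.finite_range w).toFinset))).exists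
    have h1 : ∀ i, v i ∈ K := fun i => hK2 (by simp)
    have h2 : ∀ i, w i ∈ K := fun i => hK3 (by simp)
    rw [← hK1, he K v h1, he K w h2]
    exact hR K (fun i => ⟨v i, h1 i⟩) (fun i => ⟨w i, h2 i⟩)
  · intro W _ G
    have e1 : ∀ᶠ K in (U : Filter (Finset V)), ∀ (l : Fin ρ.m) (z : Fin (ρ.ar l) → W),
        𝔹 l (fun b => e K (fun i => G i (z b))) = H0 l (fun b i => G i (z b)) := by
      rw [eventually_all]
      intro l
      rw [eventually_all]
      intro z
      exact hH l (fun b i => G i (z b))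
    have e2 : ∀ᶠ K in (U : Filter (Finset V)), ∀ u w,
        (e K (fun i => G i u) < e K (fun i => G i w)) = o0 (fun i => G i u) (fun i => G i w) := by
      rw [eventually_all]
      intro u
      rw [eventually_all]
      intro w
      exact ho _ _
    have e3 : ∀ᶠ K in (U : Filter (Finset V)), ∀ u w,
        c (e K (fun i => G i u)) (e K (fun i => G i w)) =
          h0 (fun i => G i u) (fun i => G i w) := by
      rw [eventually_all]
      intro u
      rw [eventually_all]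
      intro w
      exact hh _ _
    obtain ⟨K, hK1, hK2, hK3, hK4⟩ := (e1.and (e2.and (e3.and (hin
      (Set.finite_range fun p : I × W => G p.1 p.2).toFinset)))).exists
    have h2 : ∀ i w, G i w ∈ K := fun i w => hK4 (by
      rw [Set.Finite.mem_toFinset]
      exact ⟨(i, w), rfl⟩)
    refine ⟨fun w => e K fun i => G i w, ?_, fun l z => iff_of_eq (hK1 l z),
      fun u w => iff_of_eq (hK2 u w), hK3⟩
    intro l z hz
    have h3 : (fun a => e K fun i => G i (z a)) =
        fun a => ψ K (fun i => ⟨G i (z a), h2 i (z a)⟩) :=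
      funext fun a => he K _ fun i => h2 i (z a)
    rw [h3]
    exact hψ K l (fun a i => ⟨G i (z a), h2 i (z a)⟩) hz

theorem sameTp_comp {W Z : Type} {x y : W → V} (h : SameTp 𝔹 x y) (s : Z → W) :
    SameTp 𝔹 (fun a => x (s a)) (fun a => y (s a)) :=
  ⟨fun i j => h.1 (s i) (s j),
    funext fun l => funext fun z => congrFun (congrFun h.2 l) fun i => s (z i)⟩

/-- `g` preserves the order and the structure on `K` -/
structure Cpy (𝔹 : Str ρ V) (K : Finset V) (g : V → V) : Prop where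
  mono : ∀ x ∈ K, ∀ y ∈ K, x < y → g x < g y
  rel : ∀ (l : Fin ρ.m) (z : Fin (ρ.ar l) → V), (∀ i, z i ∈ K) → (𝔹 l (fun i => g (z i)) ↔ 𝔹 l z)

theorem Cpy.lt {K : Finset V} {g : V → V} (h : Cpy 𝔹 K g) {x y : V} (hx : x ∈ K) (hy : y ∈ K) :
    g x < g y ↔ x < y := by
  refine ⟨fun h1 => ?_, h.mono x hx y hy⟩
  by_contra hn
  rcases (not_lt.mp hn).lt_or_eq with h3 | h3
  · exact lt_asymm h1 (h.mono y hy x hx h3)
  · rw [h3] at h1
    exact lt_irrefl _ h1

theorem Cpy.eq {K : Finset V} {g : V → V} (h : Cpy 𝔹 K g) {x y : V} (hx : x ∈ K) (hy : y ∈ K) :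
    g x = g y ↔ x = y := by
  refine ⟨fun h1 => ?_, fun h1 => by rw [h1]⟩
  rcases lt_trichotomy x y with h2 | h2 | h2
  · exact absurd h1 (h.mono x hx y hy h2).ne
  · exact h2
  · exact absurd h1 (h.mono y hy x hx h2).ne'

theorem Cpy.same {K : Finset V} {g : V → V} (h : Cpy 𝔹 K g) {W : Type} {x : W → V}
    (hx : ∀ i, x i ∈ K) : SameTp 𝔹 (fun i => g (x i)) x :=
  ⟨fun i j => h.lt (hx i) (hx j),
    funext fun l => funext fun z => propext (h.rel l (fun i => x (z i)) fun i => hx (z i))⟩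

theorem Cpy.tp {K : Finset V} {g : V → V} (h : Cpy 𝔹 K g) {W : Type} {x : W → V}
    (hx : ∀ i, x i ∈ K) : tp 𝔹 (fun i => g (x i)) = tp 𝔹 x :=
  Prod.ext (funext fun a => funext fun b => propext (h.eq (hx a) (hx b))) (h.same hx).2

end

theorem two_eq {A B : Type} (u : A → B) (a b : A) : ![u a, u b] = fun i => u (![a, b] i) := by
  funext i
  fin_cases i <;> rfl

end Pool.Agent.H78.AR.CANR

namespace Pool.Agent.H78.AR

open Pool.Agent.H68.BP Pool.Agent.H58.SF Pool.Agent.H53.GC Pool.Agent.H53.NR Pool.Agent.H53.GR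
open Pool.Agent.H57.AR
open Pool.Agent.H57.SO (Pal Col vt)
open Pool.Agent.H57.EQ (Cx)
open Pool.Agent.H78.AR.CANR

theorem pf_CANR (hGCN : T_GCN) (hNR3 : Pool.Agent.H53.GR.T_NR3) : T_CANR := by
  classical
  intro σ ρ V S X _ P 𝔸 𝔹 M c hs I _ R hinvR hG
  have := hs.lnk.finS
  have := hs.lnk.finX
  obtain ⟨H0, o0, h0, hR0, hC0⟩ := exists_h0 hs I R hG
  have hRam : RamFin 𝔹 := hNR3 ρ V 𝔹 M (fun l => (hs.base.ar l).1) hs.base.univ
  obtain ⟨Hc, hinv, hloc⟩ := hGCN ρ V 𝔹 hRam I (Fin ρ.m ⊕ (Unit ⊕ (S ⊕ X)))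
    (Sum.elim ρ.ar fun _ => 2)
    (fun l => match l with
      | Sum.inl l => fun u => H0 l u
      | Sum.inr (Sum.inl _) => fun (u : Fin 2 → I → V) => o0 (u 0) (u 1)
      | Sum.inr (Sum.inr y) => fun (u : Fin 2 → I → V) => h0 (u 0) (u 1) = y)
  have hloc' : ∀ K : Finset V, ∃ g : V → V, Cpy 𝔹 K g ∧
      (∀ (l : Fin ρ.m) (u : Fin (ρ.ar l) → I → V), (∀ b i, u b i ∈ K) →
        (Hc (Sum.inl l) u ↔ H0 l (fun b i => g (u b i)))) ∧
      (∀ v w : I → V, (∀ i, v i ∈ K) → (∀ i, w i ∈ K) →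
        (Hc (Sum.inr (Sum.inl ())) ![v, w] ↔ o0 (fun i => g (v i)) (fun i => g (w i)))) ∧
      ∀ (v w : I → V) (y : S ⊕ X), (∀ i, v i ∈ K) → (∀ i, w i ∈ K) →
        (Hc (Sum.inr (Sum.inr y)) ![v, w] ↔ h0 (fun i => g (v i)) (fun i => g (w i)) = y) := by
    intro K
    obtain ⟨g, hg1, hg2, hg3⟩ := hloc K
    have hm : ∀ v w : I → V, (∀ i, v i ∈ K) → (∀ i, w i ∈ K) →
        ∀ (b : Fin 2) (i : I), (![v, w] : Fin 2 → I → V) b i ∈ K := by
      intro v w hv hw b i
      fin_cases b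
      · exact hv i
      · exact hw i
    refine ⟨g, ⟨hg1, hg2⟩, fun l u hu => hg3 (Sum.inl l) u hu, fun v w hv hw => ?_,
      fun v w y hv hw => ?_⟩
    · exact hg3 (Sum.inr (Sum.inl ())) ![v, w] (hm v w hv hw)
    · exact hg3 (Sum.inr (Sum.inr y)) ![v, w] (hm v w hv hw)
  -- the colours
  have hcol : ∀ v w : I → V, ∃ y, ∀ y', Hc (Sum.inr (Sum.inr y')) ![v, w] ↔ y' = y := by
    intro v w
    obtain ⟨g, -, -, -, hg⟩ :=
      hloc' ((Set.finite_range v).toFinset ∪ (Set.finite_range w).toFinset)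
    refine ⟨h0 (fun i => g (v i)) (fun i => g (w i)), fun y' => ?_⟩
    rw [hg v w y' (fun i => Finset.mem_union_left _ (by simp))
      (fun i => Finset.mem_union_right _ (by simp))]
    exact eq_comm
  choose h hh using hcol
  have hhK : ∀ (K : Finset V) (g : V → V), (∀ (v w : I → V) (y : S ⊕ X), (∀ i, v i ∈ K) →
      (∀ i, w i ∈ K) →
      (Hc (Sum.inr (Sum.inr y)) ![v, w] ↔ h0 (fun i => g (v i)) (fun i => g (w i)) = y)) →
      ∀ v w : I → V, (∀ i, v i ∈ K) → (∀ i, w i ∈ K) →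
        h v w = h0 (fun i => g (v i)) (fun i => g (w i)) := by
    intro K g hg v w hv hw
    exact ((hh v w _).1 ((hg v w _ hv hw).2 rfl)).symm
  refine ⟨(fun l u => Hc (Sum.inl l) u, fun v w => Hc (Sum.inr (Sum.inl ())) ![v, w]), h,
    ?_, ?_, ?_⟩
  · intro n u u' huu
    have hs2 : ∀ a b : Fin n, SameTp 𝔹 (fun q : Fin 2 × I => ![u a, u b] q.1 q.2)
        (fun q => ![u' a, u' b] q.1 q.2) := by
      intro a b
      rw [two_eq u, two_eq u']
      exact sameTp_comp huu (fun q : Fin 2 × I => (![a, b] q.1, q.2))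
    refine ⟨Prod.ext ?_ ?_, ?_⟩
    · funext l z
      exact propext (hinv (Sum.inl l) (fun b => u (z b)) (fun b => u' (z b))
        (sameTp_comp huu (fun q : Fin (ρ.ar l) × I => (z q.1, q.2))))
    · funext a b
      exact propext (hinv (Sum.inr (Sum.inl ())) ![u a, u b] ![u' a, u' b] (hs2 a b))
    · intro a b
      have h1 := (hinv (Sum.inr (Sum.inr (h (u a) (u b)))) ![u a, u b] ![u' a, u' b] (hs2 a b)).1
        ((hh (u a) (u b) _).2 rfl)
      exact (hh (u' a) (u' b) _).1 h1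
  · intro v w
    obtain ⟨g, hg1, -, -, hg⟩ :=
      hloc' ((Set.finite_range v).toFinset ∪ (Set.finite_range w).toFinset)
    have hv : ∀ i, v i ∈ (Set.finite_range v).toFinset ∪ (Set.finite_range w).toFinset :=
      fun i => Finset.mem_union_left _ (by simp)
    have hw : ∀ i, w i ∈ (Set.finite_range v).toFinset ∪ (Set.finite_range w).toFinset :=
      fun i => Finset.mem_union_right _ (by simp)
    rw [hhK _ g hg v w hv hw]
    refine hinvR (fun i => g (v i)) (fun i => g (w i)) v w _ ?_ (hR0 _ _)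
    have he : (Sum.elim (fun i => g (v i)) fun i => g (w i)) = fun i => g (Sum.elim v w i) := by
      funext i
      rcases i with i | i <;> rfl
    rw [he]
    refine hg1.same ?_
    rintro (i | i)
    · exact hv i
    · exact hw i
  · intro W _ G
    obtain ⟨g, hg1, hg2, hg3, hg4⟩ := hloc' (Set.finite_range fun p : I × W => G p.1 p.2).toFinset
    have hm : ∀ i w, G i w ∈ (Set.finite_range fun p : I × W => G p.1 p.2).toFinset := by
      intro i w
      rw [Set.Finite.mem_toFinset]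
      exact ⟨(i, w), rfl⟩
    obtain ⟨ψ, h1, h2, h3, h4⟩ := hC0 W (fun i w => g (G i w))
    refine ⟨ψ, ?_, Prod.ext ?_ ?_, ?_⟩
    · intro l z hz
      refine h1 l z fun i => ?_
      exact hs.base.tyi l (fun a => G i (z a)) (fun a => g (G i (z a))) (hz i)
        (hg1.tp fun a => hm i (z a))
    · funext l z
      exact propext ((h2 l z).trans (hg2 l (fun a i => G i (z a)) fun a i => hm i (z a)).symm)
    · funext a b
      exact propext ((h3 a b).trans (hg3 (fun i => G i a) (fun i => G i b) (fun i => hm i a)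
        fun i => hm i b).symm)
    · intro u w
      rw [hhK _ g hg4 _ _ (fun i => hm i u) (fun i => hm i w)]
      exact h4 u w

end Pool.Agent.H78.AR
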